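import Pool.Agent.H95.RQ.Targets1

set_option autoImplicit false

namespace Pool.Agent.H99.RQ

open Pool.Agent.H95.RQ

theorem pf_SYL : T_SYL := by
  intro G _ _ x p hp
  classical
  have : Fact p.Prime := ⟨hp⟩
  have hox : orderOf x ≠ 0 := (orderOf_pos x).ne'
  obtain ⟨a, m, hm, hxm⟩ := Nat.exists_eq_pow_mul_and_not_dvd hox p hp.ne_one
  set c : G := x ^ p ^ a with hc
  have hoc : orderOf c = m := by
    rw [hc, orderOf_pow' x (pow_ne_zero _ hp.pos.ne'), hxm, Nat.gcd_eq_right (Dvd.intro _ rfl),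
      Nat.mul_div_cancel_left _ (pow_pos hp.pos _)]
  have hmp : Nat.Coprime m p := (hp.coprime_iff_not_dvd.2 hm).symm
  set C : Subgroup G := Subgroup.zpowers c with hC
  set N : Subgroup G := Subgroup.normalizer (C : Set G) with hN
  have hCN : C ≤ N := Subgroup.le_normalizer
  have hxc : x * c = c * x := by
    rw [hc, ← pow_succ', ← pow_succ]
  have hxN : x ∈ N := by
    refine Subgroup.mem_normalizer_fintype ?_
    rintro _ ⟨k, rfl⟩
    have h1 : Commute x (c ^ k) := (show Commute x c from hxc).zpow_right k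
    rw [h1.eq, mul_inv_cancel_right]
    exact ⟨k, rfl⟩
  set C' : Subgroup N := C.subgroupOf N with hC'
  have : C'.Normal := Subgroup.normal_in_normalizer
  set xN : N := ⟨x, hxN⟩ with hxNdef
  have hxp : (QuotientGroup.mk' C' xN) ^ p ^ a = 1 := by
    rw [← map_pow, ← MonoidHom.mem_ker, QuotientGroup.ker_mk', hC', Subgroup.mem_subgroupOf]
    exact ⟨1, by simp [hc, hxNdef]⟩
  have hpg : IsPGroup p (Subgroup.zpowers (QuotientGroup.mk' C' xN)) := by
    rintro ⟨_, k, rfl⟩
    refine ⟨a, ?_⟩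
    ext
    simp only [Subgroup.coe_pow, Subgroup.coe_one]
    rw [← zpow_natCast, ← zpow_mul, mul_comm, zpow_mul, zpow_natCast, hxp, one_zpow]
  obtain ⟨P, hP⟩ := hpg.exists_le_sylow
  set H' : Subgroup N := (P : Subgroup (N ⧸ C')).comap (QuotientGroup.mk' C') with hH'
  set H : Subgroup G := H'.map N.subtype with hH
  have hmemH : ∀ g : G, g ∈ H ↔ ∃ h : g ∈ N, (⟨g, h⟩ : N) ∈ H' := by
    intro g
    rw [hH, Subgroup.mem_map]
    constructor
    · rintro ⟨n, hn, rfl⟩
      exact ⟨n.2, hn⟩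
    · rintro ⟨h, hn⟩
      exact ⟨⟨g, h⟩, hn, rfl⟩
  have hpow : ∀ g ∈ H, ∃ k : ℕ, g ^ p ^ k ∈ C := by
    intro g hg
    obtain ⟨h, hn⟩ := (hmemH g).1 hg
    obtain ⟨k, hk⟩ := P.isPGroup' ⟨QuotientGroup.mk' C' ⟨g, h⟩, hn⟩
    refine ⟨k, ?_⟩
    have h1 : (QuotientGroup.mk' C' ⟨g, h⟩) ^ p ^ k = 1 := by
      have := congrArg Subtype.val hk
      simpa using this
    rw [← map_pow, ← MonoidHom.mem_ker, QuotientGroup.ker_mk', hC', Subgroup.mem_subgroupOf] at h1
    simpa using h1
  have hCH : C ≤ H := by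
    intro g hg
    rw [hmemH]
    refine ⟨hCN hg, ?_⟩
    rw [hH', Subgroup.mem_comap]
    have h1 : QuotientGroup.mk' C' ⟨g, hCN hg⟩ = 1 := by
      rw [← MonoidHom.mem_ker, QuotientGroup.ker_mk', hC', Subgroup.mem_subgroupOf]
      exact hg
    rw [h1]
    exact one_mem _
  have hHN : H ≤ N := by
    intro g hg
    exact ((hmemH g).1 hg).1
  have hnor : (C.subgroupOf H).Normal := by
    constructor
    rintro ⟨d, hd⟩ hdC ⟨g, hg⟩
    rw [Subgroup.mem_subgroupOf] at hdC ⊢
    have h1 := hHN hg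
    exact (Subgroup.mem_normalizer_iff.1 h1 d).1 hdC
  refine ⟨H, ⟨C.subgroupOf H, hnor, ?_, ?_⟩, ?_⟩
  · have h1 : IsCyclic C := Subgroup.isCyclic_zpowers c
    exact (Subgroup.subgroupOfEquivOfLe hCH).symm.isCyclic.1 h1
  · intro q
    obtain ⟨g, rfl⟩ := QuotientGroup.mk_surjective q
    obtain ⟨k, hk⟩ := hpow g.1 g.2
    refine ⟨k, ?_⟩
    rw [← QuotientGroup.mk_pow, QuotientGroup.eq_one_iff, Subgroup.mem_subgroupOf]
    simpa using hk
  · -- the fixed points
    have hmem' : ∀ n : N, n ∈ H' ↔ (n : G) ∈ H := by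
      intro n
      rw [hmemH]
      exact ⟨fun h => ⟨n.2, h⟩, fun ⟨_, h⟩ => h⟩
    let φ : N ⧸ H' → G ⧸ H := Quotient.lift (fun n : N => ((n : G) : G ⧸ H)) (by
      intro n1 n2 h
      have h1 : n1⁻¹ * n2 ∈ H' := QuotientGroup.leftRel_apply.1 h
      show ((n1 : G) : G ⧸ H) = ((n2 : G) : G ⧸ H)
      rw [QuotientGroup.eq]
      have := (hmem' _).1 h1
      simpa using this)
    have hφ : ∀ n : N, φ (n : N ⧸ H') = ((n : G) : G ⧸ H) := fun n => rfl
    have hφinj : Function.Injective φ := by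
      intro q1 q2 h
      obtain ⟨n1, rfl⟩ := QuotientGroup.mk_surjective q1
      obtain ⟨n2, rfl⟩ := QuotientGroup.mk_surjective q2
      rw [hφ, hφ, QuotientGroup.eq] at h
      rw [QuotientGroup.eq, hmem']
      simpa using h
    have hφeq : ∀ q : N ⧸ H', φ (xN • q) = x • φ q := by
      intro q
      obtain ⟨n, rfl⟩ := QuotientGroup.mk_surjective q
      rfl
    have hfix : ∀ y : G ⧸ H, x • y = y → ∃ q : N ⧸ H', φ q = y := by
      intro y hy
      obtain ⟨g, rfl⟩ := QuotientGroup.mk_surjective y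
      have h1 : g⁻¹ * x * g ∈ H := by
        have h2 : ((x * g : G) : G ⧸ H) = ((g : G) : G ⧸ H) := hy
        have h3 := QuotientGroup.eq.1 h2.symm
        rwa [← mul_assoc] at h3
      have hpw : ∀ k : ℕ, (g⁻¹ * x * g) ^ k = g⁻¹ * x ^ k * g := by
        intro k
        have := conj_pow (i := k) (a := g⁻¹) (b := x)
        simpa using this
      set d : G := g⁻¹ * c * g with hd
      have hdH : d ∈ H := by
        rw [hd, hc, ← hpw]
        exact Subgroup.pow_mem _ h1 _
      have hod : d ^ m = 1 := by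
        have h2 := conj_pow (i := m) (a := g⁻¹) (b := c)
        rw [inv_inv] at h2
        rw [hd, h2, ← hoc, pow_orderOf_eq_one]
        simp
      obtain ⟨k, hk⟩ := hpow d hdH
      have hcop : IsCoprime ((p ^ k : ℕ) : ℤ) (m : ℤ) := by
        rw [Nat.isCoprime_iff_coprime]
        exact (Nat.Coprime.pow_right k hmp).symm
      obtain ⟨r, s, hrs⟩ := hcop
      have hdC : d ∈ C := by
        have h2 : d = (d ^ p ^ k) ^ r * (d ^ m) ^ s := by
          rw [← zpow_natCast d (p ^ k), ← zpow_natCast d m, ← zpow_mul, ← zpow_mul, ← zpow_add,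
            mul_comm _ r, mul_comm _ s, hrs, zpow_one]
        rw [h2, hod, one_zpow, mul_one]
        exact Subgroup.zpow_mem _ hk _
      have hgN : g⁻¹ ∈ N := by
        refine Subgroup.mem_normalizer_fintype ?_
        rintro _ ⟨j, rfl⟩
        have h2 := conj_zpow (i := j) (a := g⁻¹) (b := c)
        show g⁻¹ * c ^ j * (g⁻¹)⁻¹ ∈ C
        rw [← h2, inv_inv]
        exact Subgroup.zpow_mem _ hdC j
      have hgN' : g ∈ N := by simpa using Subgroup.inv_mem _ hgN
      exact ⟨((⟨g, hgN'⟩ : N) : N ⧸ H'), rfl⟩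
    have hcard : Nat.card {y : G ⧸ H // x • y = y} = Nat.card {q : N ⧸ H' // xN • q = q} := by
      symm
      refine Nat.card_congr (Equiv.ofBijective (fun q => ⟨φ q.1, by
        rw [← hφeq, q.2]⟩) ⟨?_, ?_⟩)
      · intro q1 q2 h
        exact Subtype.ext (hφinj (congrArg Subtype.val h))
      · rintro ⟨y, hy⟩
        obtain ⟨q, hq⟩ := hfix y hy
        refine ⟨⟨q, hφinj ?_⟩, Subtype.ext hq⟩
        rw [hφeq, hq, hy]
    have hctriv : ∀ q : N ⧸ H', xN ^ p ^ a • q = q := by
      intro q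
      obtain ⟨n, rfl⟩ := QuotientGroup.mk_surjective q
      have h1 : ((xN ^ p ^ a * n : N) : N ⧸ H') = (n : N ⧸ H') := by
        rw [eq_comm, QuotientGroup.eq, hmem']
        have h2 : (n : G)⁻¹ * c * (n : G) ∈ C := by
          have h3 := (Subgroup.mem_normalizer_iff.1 (Subgroup.inv_mem _ n.2) c).1
            (Subgroup.mem_zpowers c)
          simpa using h3
        have h4 := hCH h2
        have h5 : ((n⁻¹ * (xN ^ p ^ a * n) : N) : G) = (n : G)⁻¹ * c * (n : G) := by
          simp [hc, hxNdef, mul_assoc]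
        rw [h5]
        exact h4
      exact h1
    have : Finite (N ⧸ H') := inferInstance
    have : Fintype (N ⧸ H') := Fintype.ofFinite _
    let f : Function.End (N ⧸ H') := fun q => xN • q
    have hfpow : ∀ k : ℕ, ∀ q, (f ^ k) q = xN ^ k • q := by
      intro k
      induction k with
      | zero =>
        intro q
        rw [pow_zero, pow_zero, one_smul]
        rfl
      | succ k ih =>
        intro q
        rw [pow_succ, pow_succ, mul_smul]
        exact ih _
    have hf1 : f ^ p ^ a = 1 := by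
      funext q
      rw [hfpow, hctriv]
      rfl
    have hmod := Equiv.Perm.card_fixedPoints_modEq hf1
    have hidx : ¬ p ∣ Fintype.card (N ⧸ H') := by
      rw [← Nat.card_eq_fintype_card, ← Subgroup.index_eq_card, hH',
        Subgroup.index_comap_of_surjective _ (QuotientGroup.mk'_surjective C')]
      exact P.not_dvd_index
    have hfp : Nat.card {q : N ⧸ H' // xN • q = q} = Fintype.card f.fixedPoints := by
      rw [← Nat.card_eq_fintype_card]
      rfl
    intro hdvd
    unfold pcz at hdvd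
    rw [hcard, hfp, Int.natCast_dvd_natCast] at hdvd
    exact hidx ((hmod.dvd_iff dvd_rfl).2 hdvd)

end Pool.Agent.H99.RQ
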